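import Mathlib

set_option autoImplicit false

/-!
# Project BE (MP_e52bd2_pr): sharp Berry-Esseen bound for Rademacher sums with a large coefficient

Target: `|P (X ≤ x) - P (Z ≤ x)| ≤ P (0 < Z < a_0)` for all Rademacher sums with
`P (0 < Z < a_0) ≥ 1/4`.
-/

open MeasureTheory ProbabilityTheory

namespace Pool.Agent.W2helper31.BE

/-- the distribution function of the standard normal law -/
noncomputable def G (x : ℝ) : ℝ := ((gaussianReal 0 1) (Set.Iic x)).toReal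

/-- the probability that a Rademacher sum is at most `x` -/
noncomputable def Fle {n : ℕ} (a : Fin n → ℝ) (x : ℝ) : ℝ :=
  ((Finset.univ.filter
    (fun ε : Fin n → Bool => ∑ i, (if ε i then a i else -a i) ≤ x)).card : ℝ) / 2 ^ n

/-- the probability that a Rademacher sum is smaller than `x` -/
noncomputable def Flt {n : ℕ} (a : Fin n → ℝ) (x : ℝ) : ℝ :=
  ((Finset.univ.filter
    (fun ε : Fin n → Bool => ∑ i, (if ε i then a i else -a i) < x)).card : ℝ) / 2 ^ n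

/-- PIECE GAU. Symmetry, monotonicity, no atoms. -/
def P_GAU : Prop :=
  (∀ x : ℝ, G x + G (-x) = 1) ∧ (∀ x y : ℝ, x ≤ y → G x ≤ G y) ∧ (∀ x : ℝ, G x ≤ 1) ∧
    ∀ a : ℝ, 0 < a → ((gaussianReal 0 1) (Set.Ioo 0 a)).toReal = G a - 1 / 2

/-- PIECE GAUB. The density is at most `1/√(2π) ≤ 2/5`; for `x ≥ 1`:
`∫_0^1 e^(-t^2/2) ≤ ∫_0^1 (1 - t^2/2 + t^4/8) = 103/120` and `e^(-t^2/2) ≤ e^(-1/2) ≤ 61/100` for `t ≥ 1`. -/
def P_GAUB : Prop :=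
  (∀ x : ℝ, 0 ≤ x → G x ≤ 1 / 2 + 2 / 5 * x) ∧
    ∀ x : ℝ, 1 ≤ x → G x ≤ 1 / 2 + 2 / 5 * (103 / 120 + 61 / 100 * (x - 1))

/-- PIECE RADS. Symmetry under `ε ↦ !ε`. -/
def P_RADS : Prop :=
  ∀ (n : ℕ) (a : Fin n → ℝ),
    (∀ x : ℝ, Fle a x + Flt a (-x) = 1) ∧ (∀ x : ℝ, 0 ≤ x → 1 / 2 ≤ Fle a x) ∧
      (∀ x : ℝ, 0 < x → 1 / 2 ≤ Flt a x) ∧ (∀ x : ℝ, x < 0 → Fle a x ≤ 1 / 2) ∧
      (∀ x : ℝ, Flt a x ≤ Fle a x) ∧ ∀ x : ℝ, Fle a x ≤ 1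

/-- PIECE RADC. Conditioning on `ε 0` (`Fin.consEquiv` or `Fin.insertNthEquiv`). -/
def P_RADC : Prop :=
  ∀ (n : ℕ) (a : Fin (n + 1) → ℝ) (x : ℝ),
    Fle a x = (Fle (fun i => a i.succ) (x - a 0) + Fle (fun i => a i.succ) (x + a 0)) / 2 ∧
    Flt a x = (Flt (fun i => a i.succ) (x - a 0) + Flt (fun i => a i.succ) (x + a 0)) / 2

/-- PIECE CHEB. Chebyshev's inequality for a symmetric sum: `∑_ε S(ε)^2 = 2^n ∑ a i ^ 2` (induction on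
`n`, or orthogonality), so `t^2 #{|S| ≥ t} ≤ 2^n ∑ a i ^ 2`, and `#{S ≥ t} = #{S ≤ -t}`. -/
def P_CHEB : Prop :=
  ∀ (n : ℕ) (a : Fin n → ℝ) (t : ℝ), 0 < t → 1 - (∑ i, a i ^ 2) / (2 * t ^ 2) ≤ Flt a t

end Pool.Agent.W2helper31.BE
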