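import Mathlib
import Pool.Agent.W2helper31.BE.Stm

set_option autoImplicit false

/-!
# Sharp Berry-Esseen bound for Rademacher sums with a large coefficient: assembly
-/

open MeasureTheory ProbabilityTheory

namespace Pool.Agent.W2helper31.BE

theorem G_zero (hG : P_GAU) : G 0 = 1 / 2 := by
  have := hG.1 0
  rw [neg_zero] at this
  linarith

/-- the lower side for `x > a 0` -/
theorem lower_side (hG : P_GAU) (hB : P_GAUB) (hR : P_RADS) (hC : P_RADC) (hT : P_CHEB) (n : ℕ)
    (a : Fin (n + 1) → ℝ) (ha : 0 < a 0) (hs : ∑ i, a i ^ 2 = 1)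
    (hp : 1 / 4 ≤ G (a 0) - 1 / 2) (x : ℝ) (hx : a 0 < x) : G x - 1 / 4 ≤ Flt a x := by
  have ha5 : 5 / 8 ≤ a 0 := by
    have := hB.1 (a 0) ha.le
    linarith
  have hx0 : 0 < x := by linarith
  have h1 := hT (n + 1) a x hx0
  rw [hs] at h1
  have hG1 := hG.2.2.1 x
  rcases le_or_gt 2 (x ^ 2) with h2 | h2
  · have h3 : 1 / (2 * x ^ 2) ≤ 1 / 4 := by
      apply one_div_le_one_div_of_le <;> nlinarith
    linarith
  · -- conditioning
    set V := ∑ i : Fin n, a i.succ ^ 2 with hV
    have hVe : V = 1 - a 0 ^ 2 := by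
      rw [Fin.sum_univ_succ] at hs
      linarith
    have hV1 : V ≤ 39 / 64 := by nlinarith
    have h3 := (hC n a x).2
    have h4 := (hR n (fun i => a i.succ)).2.2.1 (x - a 0) (by linarith)
    have h5 := hT n (fun i => a i.succ) (x + a 0) (by linarith)
    simp only [← hV] at h5
    have hF : 3 / 4 - V / (4 * (x + a 0) ^ 2) ≤ Flt a x := by
      rw [h3]
      have h6 : V / (2 * (x + a 0) ^ 2) = 2 * (V / (4 * (x + a 0) ^ 2)) := by
        field_simp
        ring
      rw [h6] at h5
      linarith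
    have hV0 : 0 ≤ V := Finset.sum_nonneg (fun i _ => sq_nonneg _)
    -- a bound for the Gaussian distribution function
    have key : ∀ c : ℝ, 0 < c → c ≤ x + a 0 → V / (4 * (x + a 0) ^ 2) ≤ (39 / 64) / (4 * c ^ 2) := by
      intro c hc hcx
      have h7 : c ^ 2 ≤ (x + a 0) ^ 2 := pow_le_pow_left₀ hc.le hcx 2
      have h8 : 0 < 4 * c ^ 2 := by positivity
      exact div_le_div₀ (by norm_num) hV1 h8 (by linarith)
    rcases le_or_gt x 1 with h9 | h9
    · have h10 := key (5 / 4) (by norm_num) (by linarith)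
      have h11 := hB.1 x hx0.le
      norm_num at h10
      linarith
    · have h11 := hB.2 x h9.le
      rcases le_or_gt x (13 / 10) with h12 | h12
      · have h10 := key (13 / 8) (by norm_num) (by linarith)
        norm_num at h10
        linarith
      · have h10 := key (77 / 40) (by norm_num) (by linarith)
        norm_num at h10
        have h13 : x < 1415 / 1000 := by nlinarith
        linarith

/-- the upper side for `x ≥ 0` -/
theorem upper_side (hG : P_GAU) (hR : P_RADS) (hC : P_RADC) (n : ℕ)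
    (a : Fin (n + 1) → ℝ)
    (hp : 1 / 4 ≤ G (a 0) - 1 / 2) (x : ℝ) (hx : 0 ≤ x) :
    Fle a x - G x ≤ G (a 0) - 1 / 2 := by
  have h0 := G_zero hG
  rcases lt_or_ge x (a 0) with h1 | h1
  · have h2 := (hC n a x).1
    have h3 := (hR n (fun i => a i.succ)).2.2.2.1 (x - a 0) (by linarith)
    have h4 := (hR n (fun i => a i.succ)).2.2.2.2.2 (x + a 0)
    have h5 := hG.2.1 0 x hx
    rw [h2]
    linarith
  · have h2 := (hR (n + 1) a).2.2.2.2.2 x
    have h3 := hG.2.1 (a 0) x h1
    linarith

theorem final (hG : P_GAU) (hB : P_GAUB) (hR : P_RADS) (hC : P_RADC) (hT : P_CHEB) (n : ℕ)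
    (a : Fin (n + 1) → ℝ) (hs : ∑ i, a i ^ 2 = 1)
    (hp : 1 / 4 ≤ ((gaussianReal 0 1) (Set.Ioo 0 (a 0))).toReal) (x : ℝ) :
    |Fle a x - G x| ≤ ((gaussianReal 0 1) (Set.Ioo 0 (a 0))).toReal := by
  have ha : 0 < a 0 := by
    by_contra hcon
    rw [Set.Ioo_eq_empty hcon] at hp
    norm_num at hp
  rw [hG.2.2.2 (a 0) ha] at hp ⊢
  -- the two sides for nonnegative numbers
  have hup := upper_side hG hR hC n a hp
  have hlo : ∀ y : ℝ, 0 < y → G y - Flt a y ≤ G (a 0) - 1 / 2 := by
    intro y hy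
    rcases lt_or_ge (a 0) y with h1 | h1
    · have := lower_side hG hB hR hC hT n a ha hs hp y h1
      linarith
    · have h2 := (hR (n + 1) a).2.2.1 y hy
      have h3 := hG.2.1 y (a 0) h1
      linarith
  rw [abs_le]
  rcases lt_trichotomy x 0 with hx | hx | hx
  · have hy : 0 < -x := by linarith
    have h1 := hlo (-x) hy
    have h2 := hup (-x) hy.le
    have h3 := (hR (n + 1) a).1 x
    have h4 := hG.1 x
    have h5 := (hR (n + 1) a).2.2.2.2.1 (-x)
    constructor <;> linarith
  · subst hx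
    have h1 := hup 0 le_rfl
    have h2 := (hR (n + 1) a).2.1 0 le_rfl
    have h3 := G_zero hG
    constructor <;> linarith
  · have h1 := hlo x hx
    have h2 := hup x hx.le
    have h5 := (hR (n + 1) a).2.2.2.2.1 x
    constructor <;> linarith

end Pool.Agent.W2helper31.BE
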